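import Mathlib
import Pool.Agent.Q162.Benzel.Defs

/-!
Tileability of sets of hexagonal cells: unions, single direction regions, reflection.
-/

namespace Pool.Agent.Q139.Bz

open Pool.Agent.Q162.Benzel

/-- Tileability of `R` by tiles satisfying `p`. -/
def Tileable (p : Finset Cell → Prop) (R : Set Cell) : Prop :=
  ∃ P : Finset (Finset Cell), IsTiling p R P

theorem tileable_congr {p : Finset Cell → Prop} {R S : Set Cell}
    (h : ∀ i j k : ℤ, (i, j, k) ∈ R ↔ (i, j, k) ∈ S) (hS : Tileable p S) : Tileable p R := by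
  have : R = S := by
    ext ⟨i, j, k⟩
    exact h i j k
  rwa [this]

theorem tileable_empty (p : Finset Cell → Prop) : Tileable p ∅ := by
  refine ⟨∅, ?_, ?_, ?_⟩
  · simp
  · simp
  · simp

theorem tileable_union {p : Finset Cell → Prop} {R S : Set Cell}
    (hd : ∀ i j k : ℤ, (i, j, k) ∈ R → (i, j, k) ∈ S → False)
    (hR : Tileable p R) (hS : Tileable p S) : Tileable p (R ∪ S) := by
  classical
  obtain ⟨P, hP1, hP2, hP3⟩ := hR
  obtain ⟨Q, hQ1, hQ2, hQ3⟩ := hS
  have key : ∀ T ∈ P, ∀ T' ∈ Q, Disjoint T T' := by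
    intro T hT T' hT'
    rw [Finset.disjoint_left]
    rintro ⟨i, j, k⟩ h1 h2
    exact hd i j k ((hP3 _).1 ⟨T, hT, h1⟩) ((hQ3 _).1 ⟨T', hT', h2⟩)
  refine ⟨P ∪ Q, ?_, ?_, ?_⟩
  · intro T hT
    rcases Finset.mem_union.1 hT with h | h
    · exact hP1 T h
    · exact hQ1 T h
  · intro T hT T' hT' hne
    rcases Finset.mem_union.1 hT with h | h <;> rcases Finset.mem_union.1 hT' with h' | h'
    · exact hP2 T h T' h' hne
    · exact key T h T' h'
    · exact (key T' h' T h).symm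
    · exact hQ2 T h T' h' hne
  · intro c
    constructor
    · rintro ⟨T, hT, hc⟩
      rcases Finset.mem_union.1 hT with h | h
      · exact Or.inl ((hP3 c).1 ⟨T, h, hc⟩)
      · exact Or.inr ((hQ3 c).1 ⟨T, h, hc⟩)
    · rintro (h | h)
      · obtain ⟨T, hT, hc⟩ := (hP3 c).2 h
        exact ⟨T, Finset.mem_union_left _ hT, hc⟩
      · obtain ⟨T, hT, hc⟩ := (hQ3 c).2 h
        exact ⟨T, Finset.mem_union_right _ hT, hc⟩

theorem tileable_of_fun {p : Finset Cell → Prop} {R : Set Cell} (hR : R.Finite)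
    (f : Cell → Finset Cell) (h1 : ∀ c ∈ R, c ∈ f c)
    (h2 : ∀ c ∈ R, ∀ c' ∈ f c, c' ∈ R ∧ f c' = f c) (h3 : ∀ c ∈ R, p (f c)) :
    Tileable p R := by
  classical
  refine ⟨hR.toFinset.image f, ?_, ?_, ?_⟩
  · intro T hT
    obtain ⟨c, hc, rfl⟩ := Finset.mem_image.1 hT
    exact h3 c (hR.mem_toFinset.1 hc)
  · intro T hT T' hT' hne
    obtain ⟨c, hc, rfl⟩ := Finset.mem_image.1 hT
    obtain ⟨c', hc', rfl⟩ := Finset.mem_image.1 hT'
    rw [Finset.disjoint_left]
    intro e he he'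
    apply hne
    rw [← (h2 c (hR.mem_toFinset.1 hc) e he).2, (h2 c' (hR.mem_toFinset.1 hc') e he').2]
  · intro c
    constructor
    · rintro ⟨T, hT, hc⟩
      obtain ⟨c', hc', rfl⟩ := Finset.mem_image.1 hT
      exact (h2 c' (hR.mem_toFinset.1 hc') c hc).1
    · intro hc
      exact ⟨f c, Finset.mem_image.2 ⟨c, hR.mem_toFinset.2 hc, rfl⟩, h1 c hc⟩

/-- Boundedness gives finiteness. -/
theorem finite_of_le {R : Set Cell} (X Y Z : ℤ)
    (h : ∀ i j k : ℤ, (i, j, k) ∈ R → i + j + k = 1 ∧ k ≤ X ∧ j ≤ Y ∧ i ≤ Z) :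
    R.Finite := by
  apply (Set.finite_Icc ((1 - X - Y, 1 - X - Z, 1 - Y - Z) : Cell) (Z, Y, X)).subset
  rintro ⟨i, j, k⟩ hc
  obtain ⟨h1, h2, h3, h4⟩ := h i j k hc
  refine ⟨⟨?_, ?_, ?_⟩, ⟨?_, ?_, ?_⟩⟩ <;> simp only <;> omega

/-- Bone number 0 with smallest position `s`. -/
def bone0 (s n k : ℤ) : Finset Cell :=
  {(s, n - s, k), (s + 1, n - s - 1, k), (s + 2, n - s - 2, k)}

theorem isBone0 (s n r : ℤ) (h : n + r = 1) : IsBone 0 (bone0 s n r) := by
  refine ⟨(s, n - s, r), ?_, ?_⟩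
  · simp only; omega
  · simp only [bone0, dir]
    congr 1
    congr 1
    · ext <;> simp; ring
    · congr 1
      ext <;> simp; ring

/-- Regions filled by bones in direction `0`. -/
theorem rows0 {p : Finset Cell → Prop} (hp : ∀ T, IsBone 0 T → p T) {R : Set Cell}
    (hR : R.Finite) (L : ℤ → ℤ)
    (h : ∀ i j k : ℤ, (i, j, k) ∈ R → i + j + k = 1 ∧ ∀ s, s = i - (i - L k) % 3 →
      (s, i + j - s, k) ∈ R ∧ (s + 1, i + j - s - 1, k) ∈ R ∧ (s + 2, i + j - s - 2, k) ∈ R) :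
    Tileable p R := by
  apply tileable_of_fun hR (fun c => bone0 (c.1 - (c.1 - L c.2.2) % 3) (c.1 + c.2.1) (c.2.2))
  · rintro ⟨i, j, k⟩ hc
    simp only [bone0, Finset.mem_insert, Finset.mem_singleton, Prod.mk.injEq, and_true, true_and]
    omega
  · rintro ⟨i, j, k⟩ hc c' hc'
    obtain ⟨hs, h'⟩ := h i j k hc
    obtain ⟨h1, h2, h3⟩ := h' _ rfl
    simp only [bone0, Finset.mem_insert, Finset.mem_singleton] at hc'
    rcases hc' with rfl | rfl | rfl
    · refine ⟨h1, ?_⟩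
      simp only
      congr 1 <;> omega
    · refine ⟨h2, ?_⟩
      simp only
      congr 1 <;> omega
    · refine ⟨h3, ?_⟩
      simp only
      congr 1 <;> omega
  · rintro ⟨i, j, k⟩ hc
    apply hp
    obtain ⟨hs, h'⟩ := h i j k hc
    apply isBone0
    simp only; omega

/-- Bone number 1 with smallest position `s`. -/
def bone1 (s n i : ℤ) : Finset Cell :=
  {(i, s, n - s), (i, s + 1, n - s - 1), (i, s + 2, n - s - 2)}

theorem isBone1 (s n r : ℤ) (h : n + r = 1) : IsBone 1 (bone1 s n r) := by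
  refine ⟨(r, s, n - s), ?_, ?_⟩
  · simp only; omega
  · simp only [bone1, dir]
    congr 1
    congr 1
    · ext <;> simp; ring
    · congr 1
      ext <;> simp; ring

/-- Regions filled by bones in direction `1`. -/
theorem rows1 {p : Finset Cell → Prop} (hp : ∀ T, IsBone 1 T → p T) {R : Set Cell}
    (hR : R.Finite) (L : ℤ → ℤ)
    (h : ∀ i j k : ℤ, (i, j, k) ∈ R → i + j + k = 1 ∧ ∀ s, s = j - (j - L i) % 3 →
      (i, s, j + k - s) ∈ R ∧ (i, s + 1, j + k - s - 1) ∈ R ∧ (i, s + 2, j + k - s - 2) ∈ R) :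
    Tileable p R := by
  apply tileable_of_fun hR (fun c => bone1 (c.2.1 - (c.2.1 - L c.1) % 3) (c.2.1 + c.2.2) (c.1))
  · rintro ⟨i, j, k⟩ hc
    simp only [bone1, Finset.mem_insert, Finset.mem_singleton, Prod.mk.injEq, and_true, true_and]
    omega
  · rintro ⟨i, j, k⟩ hc c' hc'
    obtain ⟨hs, h'⟩ := h i j k hc
    obtain ⟨h1, h2, h3⟩ := h' _ rfl
    simp only [bone1, Finset.mem_insert, Finset.mem_singleton] at hc'
    rcases hc' with rfl | rfl | rfl
    · refine ⟨h1, ?_⟩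
      simp only
      congr 1 <;> omega
    · refine ⟨h2, ?_⟩
      simp only
      congr 1 <;> omega
    · refine ⟨h3, ?_⟩
      simp only
      congr 1 <;> omega
  · rintro ⟨i, j, k⟩ hc
    apply hp
    obtain ⟨hs, h'⟩ := h i j k hc
    apply isBone1
    simp only; omega

/-- Bone number 2 with smallest position `s`. -/
def bone2 (s n j : ℤ) : Finset Cell :=
  {(n - s, j, s), (n - s - 1, j, s + 1), (n - s - 2, j, s + 2)}

theorem isBone2 (s n r : ℤ) (h : n + r = 1) : IsBone 2 (bone2 s n r) := by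
  refine ⟨(n - s, r, s), ?_, ?_⟩
  · simp only; omega
  · simp only [bone2, dir]
    congr 1
    congr 1
    · ext <;> simp; ring
    · congr 1
      ext <;> simp; ring

/-- Regions filled by bones in direction `2`. -/
theorem rows2 {p : Finset Cell → Prop} (hp : ∀ T, IsBone 2 T → p T) {R : Set Cell}
    (hR : R.Finite) (L : ℤ → ℤ)
    (h : ∀ i j k : ℤ, (i, j, k) ∈ R → i + j + k = 1 ∧ ∀ s, s = k - (k - L j) % 3 →
      (i + k - s, j, s) ∈ R ∧ (i + k - s - 1, j, s + 1) ∈ R ∧ (i + k - s - 2, j, s + 2) ∈ R) :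
    Tileable p R := by
  apply tileable_of_fun hR (fun c => bone2 (c.2.2 - (c.2.2 - L c.2.1) % 3) (c.1 + c.2.2) (c.2.1))
  · rintro ⟨i, j, k⟩ hc
    simp only [bone2, Finset.mem_insert, Finset.mem_singleton, Prod.mk.injEq, and_true, true_and]
    omega
  · rintro ⟨i, j, k⟩ hc c' hc'
    obtain ⟨hs, h'⟩ := h i j k hc
    obtain ⟨h1, h2, h3⟩ := h' _ rfl
    simp only [bone2, Finset.mem_insert, Finset.mem_singleton] at hc'
    rcases hc' with rfl | rfl | rfl
    · refine ⟨h1, ?_⟩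
      simp only
      congr 1 <;> omega
    · refine ⟨h2, ?_⟩
      simp only
      congr 1 <;> omega
    · refine ⟨h3, ?_⟩
      simp only
      congr 1 <;> omega
  · rintro ⟨i, j, k⟩ hc
    apply hp
    obtain ⟨hs, h'⟩ := h i j k hc
    apply isBone2
    simp only; omega

end Pool.Agent.Q139.Bz
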