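import Pool.Agent.Q139.Bz.Tri

/-!
Benzels with nonpositive Conway-Lagarias invariant are tiled by left stones and bones.
-/

namespace Pool.Agent.Q139.Bz

open Pool.Agent.Q162.Benzel

variable {p : Finset Cell → Prop}

/-- The tileable region formed by one tile. -/
theorem tileable_single {T : Finset Cell} (h : p T) : Tileable p {c | c ∈ T} := by
  refine ⟨{T}, ?_, ?_, ?_⟩
  · intro T' hT'
    rw [Finset.mem_singleton.1 hT']
    exact h
  · intro T1 h1 T2 h2 hne
    rw [Finset.mem_singleton] at h1 h2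
    exact absurd (h1.trans h2.symm) hne
  · intro c
    simp

/-- Full triangles with `3 m - 1` rows. -/
theorem full_two (hp : ∀ n T, IsBone n T → p T) (hs : ∀ T, IsLeftStone T → p T) (m : ℕ) :
    ∀ X Y Z : ℤ, X + Y + Z = 3 * m - 1 → Tileable p (tri X Y Z (-1)) := by
  induction m with
  | zero =>
    intro X Y Z hN
    apply tileable_congr _ (tileable_empty p)
    intro i j k
    simp only [tri, Set.mem_ofPred_eq, Set.mem_empty_iff_false, iff_false]
    push_cast at hN
    omega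
  | succ m ih =>
    intro X Y Z hN
    push_cast at hN
    have h1 := ih (X - 3) Y Z (by omega)
    have h2 : Tileable p ({c : Cell | c ∈ ({((Z, 2 - X - Z, X) : Cell) - (1, 0, 0),
        (Z, 2 - X - Z, X) - (0, 1, 0), (Z, 2 - X - Z, X) - (0, 0, 1)} : Finset Cell)} ∪
        tri (X - 3) Y Z (-1)) := by
      apply tileable_union _ (tileable_single (hs _ ⟨(Z, 2 - X - Z, X), by simp only; ring, rfl⟩)) h1
      intro i j k h3 h4
      simp only [tri, Set.mem_ofPred_eq, Finset.mem_insert, Finset.mem_singleton, Prod.mk_sub_mk,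
        Prod.mk.injEq] at h3 h4
      omega
    have h3 : Tileable p {c : Cell | c.1 + c.2.1 + c.2.2 = 1 ∧ 0 ≤ X - c.2.2 ∧ X - c.2.2 ≤ 2 ∧
        0 ≤ Y - c.2.1 ∧ Y - c.2.1 ≤ X + Y + Z - 3} := by
      apply rows2 (hp 2) _ (fun _ => X - 2)
      · intro i j k h
        simp only [Set.mem_ofPred_eq] at h ⊢
        refine ⟨h.1, ?_⟩
        intro s hs
        refine ⟨?_, ?_, ?_⟩ <;> omega
      · apply finite_of_le X Y Z
        intro i j k h
        simp only [Set.mem_ofPred_eq] at h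
        omega
    have h4 := tileable_union (R := {c : Cell | c.1 + c.2.1 + c.2.2 = 1 ∧ 0 ≤ X - c.2.2 ∧
        X - c.2.2 ≤ 2 ∧ 0 ≤ Y - c.2.1 ∧ Y - c.2.1 ≤ X + Y + Z - 3}) ?_ h3 h2
    · apply tileable_congr _ h4
      intro i j k
      simp only [tri, Set.mem_ofPred_eq, Finset.mem_insert, Finset.mem_singleton, Prod.mk_sub_mk,
        Prod.mk.injEq, Set.mem_union]
      omega
    · intro i j k h3 h4
      simp only [tri, Set.mem_ofPred_eq, Finset.mem_insert, Finset.mem_singleton, Prod.mk_sub_mk,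
        Prod.mk.injEq, Set.mem_union] at h3 h4
      omega

/-- Full triangles with `3 m` rows. -/
theorem full_zero (hp : ∀ n T, IsBone n T → p T) (hs : ∀ T, IsLeftStone T → p T) (m : ℕ)
    (X Y Z : ℤ) (hN : X + Y + Z = 3 * m) : Tileable p (tri X Y Z (-1)) := by
  have h1 := full_two hp hs m (X - 1) Y Z (by omega)
  have h2 : Tileable p {c : Cell | c.1 + c.2.1 + c.2.2 = 1 ∧ X - c.2.2 = 0 ∧
      0 ≤ Y - c.2.1 ∧ 0 ≤ Z - c.1} := by
    apply rows0 (hp 0) _ (fun _ => 1 - X - Y)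
    · intro i j k h
      simp only [Set.mem_ofPred_eq] at h ⊢
      refine ⟨h.1, ?_⟩
      intro s hs
      refine ⟨?_, ?_, ?_⟩ <;> omega
    · apply finite_of_le X Y Z
      intro i j k h
      simp only [Set.mem_ofPred_eq] at h
      omega
  refine tileable_congr ?_ (tileable_union ?_ h2 h1)
  · intro i j k
    simp only [tri, Set.mem_ofPred_eq, Set.mem_union]
    omega
  · intro i j k h3 h4
    simp only [tri, Set.mem_ofPred_eq] at h3 h4
    omega

/-- All truncated triangles with enough rows. -/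
theorem tri_all (hp : ∀ n T, IsBone n T → p T) (hs : ∀ T, IsLeftStone T → p T) (d : ℕ) :
    ∀ s : ℕ, ∀ X Y Z : ℤ,
      2 * (X + Y + Z) = 3 * ((d : ℤ) + 1) ^ 2 + 3 * ((d : ℤ) + 1) - 6 + 6 * s →
      Tileable p (tri X Y Z (2 * ((d : ℤ) + 1) - 3)) := by
  induction d with
  | zero =>
    intro s X Y Z h
    have := full_zero hp hs s X Y Z (by push_cast at h; linarith)
    simpa using this
  | succ d ih =>
    intro s X Y Z h
    obtain ⟨e, he⟩ : ∃ e : ℤ, ((d : ℤ) + 2) * ((d : ℤ) + 3) = 2 * e := by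
      rcases Int.even_or_odd' (d : ℤ) with ⟨r, hr | hr⟩
      · exact ⟨(r + 1) * (2 * r + 3), by rw [hr]; ring⟩
      · exact ⟨(2 * r + 3) * (r + 2), by rw [hr]; ring⟩
    have hN : X + Y + Z = 3 * e - 3 + 3 * s := by
      push_cast at h
      have : 3 * ((d : ℤ) + 1 + 1) ^ 2 + 3 * ((d : ℤ) + 1 + 1) =
        3 * (((d : ℤ) + 2) * ((d : ℤ) + 3)) := by ring
      linarith
    have hd0 : (0 : ℤ) ≤ d := Int.natCast_nonneg d
    have h1 : Tileable p (tri (X - (3 * ((d : ℤ) + 2) - 1)) Y (Z - 1) (2 * ((d : ℤ) + 1) - 3)) := by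
      apply ih s
      push_cast at h
      linear_combination h
    have h2 := tri_step (p := p) hp ((d : ℤ) + 2) X Y Z (by omega) (by omega) (by
      push_cast at h
      nlinarith) (by
      have e1 : (2 * ((d : ℤ) + 2) - 5) = (2 * ((d : ℤ) + 1) - 3) := by ring
      rw [e1]
      exact h1)
    have e2 : (2 * ((d : ℤ) + 2) - 3) = (2 * (((d + 1 : ℕ) : ℤ) + 1) - 3) := by push_cast; ring
    rw [← e2]
    exact h2

/-- Removing the three good corners of a benzel. -/
theorem benzel_caps (hp : ∀ n T, IsBone n T → p T) (a b A : ℤ) (hab : (a + b) % 3 = 0)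
    (hb : b ≤ a) (ha0 : 2 ≤ a) (hA : 2 * a - b ≤ 3 * A) (hA2 : a < 3 * A)
    (h : Tileable p {c : Cell | c ∈ benzel a b ∧ c.1 < A ∧ c.2.1 < A ∧ c.2.2 < A}) :
    Tileable p (benzel a b) := by
  have c1 : Tileable p {c : Cell | c.1 + c.2.1 + c.2.2 = 1 ∧ A ≤ c.2.2 ∧
      c.2.2 - a + 1 ≤ c.1 ∧ c.2.2 - b + 1 ≤ c.2.1} := by
    apply rows0 (hp 0) _ (fun k => k - a + 1)
    · intro i j k h
      simp only [Set.mem_ofPred_eq] at h ⊢
      refine ⟨h.1, ?_⟩
      intro s hs
      refine ⟨?_, ?_, ?_⟩ <;> omega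
    · apply finite_of_le (a + b) (a + b) (a + b)
      intro i j k h
      simp only [Set.mem_ofPred_eq] at h
      omega
  have c2 : Tileable p {c : Cell | c.1 + c.2.1 + c.2.2 = 1 ∧ A ≤ c.1 ∧
      c.1 - a + 1 ≤ c.2.1 ∧ c.1 - b + 1 ≤ c.2.2} := by
    apply rows1 (hp 1) _ (fun i => i - a + 1)
    · intro i j k h
      simp only [Set.mem_ofPred_eq] at h ⊢
      refine ⟨h.1, ?_⟩
      intro s hs
      refine ⟨?_, ?_, ?_⟩ <;> omega
    · apply finite_of_le (a + b) (a + b) (a + b)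
      intro i j k h
      simp only [Set.mem_ofPred_eq] at h
      omega
  have c3 : Tileable p {c : Cell | c.1 + c.2.1 + c.2.2 = 1 ∧ A ≤ c.2.1 ∧
      c.2.1 - a + 1 ≤ c.2.2 ∧ c.2.1 - b + 1 ≤ c.1} := by
    apply rows2 (hp 2) _ (fun j => j - a + 1)
    · intro i j k h
      simp only [Set.mem_ofPred_eq] at h ⊢
      refine ⟨h.1, ?_⟩
      intro s hs
      refine ⟨?_, ?_, ?_⟩ <;> omega
    · apply finite_of_le (a + b) (a + b) (a + b)
      intro i j k h
      simp only [Set.mem_ofPred_eq] at h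
      omega
  have e1 := tileable_union (R := {c : Cell | c.1 + c.2.1 + c.2.2 = 1 ∧ A ≤ c.2.1 ∧
      c.2.1 - a + 1 ≤ c.2.2 ∧ c.2.1 - b + 1 ≤ c.1}) (by
    intro i j k h1 h2
    simp only [benzel, Set.mem_ofPred_eq] at h1 h2
    omega) c3 h
  have e2 := tileable_union (R := {c : Cell | c.1 + c.2.1 + c.2.2 = 1 ∧ A ≤ c.1 ∧
      c.1 - a + 1 ≤ c.2.1 ∧ c.1 - b + 1 ≤ c.2.2}) (by
    intro i j k h1 h2
    simp only [benzel, Set.mem_ofPred_eq, Set.mem_union] at h1 h2
    omega) c2 e1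
  have e3 := tileable_union (R := {c : Cell | c.1 + c.2.1 + c.2.2 = 1 ∧ A ≤ c.2.2 ∧
      c.2.2 - a + 1 ≤ c.1 ∧ c.2.2 - b + 1 ≤ c.2.1}) (by
    intro i j k h1 h2
    simp only [benzel, Set.mem_ofPred_eq, Set.mem_union] at h1 h2
    omega) c1 e2
  refine tileable_congr ?_ e3
  intro i j k
  simp only [benzel, Set.mem_ofPred_eq, Set.mem_union]
  constructor
  · intro hc
    rcases lt_or_ge k A with hk | hk
    · rcases lt_or_ge i A with hi | hi
      · rcases lt_or_ge j A with hj | hj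
        · exact Or.inr (Or.inr (Or.inr ⟨hc, hi, hj, hk⟩))
        · exact Or.inr (Or.inr (Or.inl (by omega)))
      · exact Or.inr (Or.inl (by omega))
    · exact Or.inl (by omega)
  · rintro (h | h | h | h)
    · omega
    · omega
    · omega
    · exact h.1

/-- Benzels with `b ≤ a`, `a + b ≡ 0 (mod 3)` and `3 (a - b)² ≤ a + b`. -/
theorem benzel_left_of_le (hp : ∀ n T, IsBone n T → p T) (hs : ∀ T, IsLeftStone T → p T)
    (a b : ℤ) (hab : (a + b) % 3 = 0) (hb : b ≤ a) (ha0 : 2 ≤ a)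
    (hI : 3 * (a - b) ^ 2 ≤ a + b) : Tileable p (benzel a b) := by
  rcases eq_or_lt_of_le hb with hb | hb
  · -- `a = b = 3 m`
    subst hb
    obtain ⟨m, hm⟩ : ∃ m : ℤ, b = 3 * m := ⟨b / 3, by omega⟩
    apply benzel_caps hp b b (m + 1) hab le_rfl ha0 (by omega) (by omega)
    have h1 := full_zero hp hs m.toNat m m m (by omega)
    refine tileable_congr ?_ h1
    intro i j k
    simp only [benzel, tri, Set.mem_ofPred_eq]
    omega
  · obtain ⟨A, hA⟩ : ∃ A : ℤ, 2 * a - b = 3 * A := ⟨(2 * a - b) / 3, by omega⟩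
    apply benzel_caps hp a b A hab hb.le ha0 (by omega) (by omega)
    obtain ⟨d, hd⟩ : ∃ d : ℕ, a - b = (d : ℤ) + 1 := ⟨(a - b - 1).toNat, by omega⟩
    obtain ⟨s, hs'⟩ : ∃ s : ℕ, a + b = 3 * (a - b) ^ 2 + 6 * s := by
      have h6 : (a + b - 3 * (a - b) ^ 2) % 6 = 0 := by
        obtain ⟨q, hq⟩ : ∃ q : ℤ, a + b = 3 * q := ⟨(a + b) / 3, by omega⟩
        have h2 : (a + b - 3 * (a - b) ^ 2) = 3 * (q - (a - b) ^ 2) := by rw [hq]; ring
        have h3 : (q - (a - b) ^ 2) % 2 = 0 := by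
          have h4 : (a - b) ^ 2 % 2 = (a - b) % 2 := by
            rcases Int.even_or_odd' (a - b) with ⟨r, hr | hr⟩
            · rw [hr]; ring_nf; omega
            · rw [hr]
              have : (2 * r + 1) ^ 2 = 2 * (2 * r ^ 2 + 2 * r) + 1 := by ring
              omega
          omega
        omega
      refine ⟨((a + b - 3 * (a - b) ^ 2) / 6).toNat, ?_⟩
      have : 0 ≤ (a + b - 3 * (a - b) ^ 2) / 6 := by
        apply Int.ediv_nonneg _ (by norm_num)
        linarith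
      rw [Int.toNat_of_nonneg this]
      omega
    have h1 := tri_all hp hs d s (A - 1) (A - 1) (A - 1) (by
      rw [← hd]
      linarith)
    refine tileable_congr ?_ h1
    intro i j k
    simp only [benzel, tri, Set.mem_ofPred_eq]
    rw [← hd]
    omega

end Pool.Agent.Q139.Bz
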