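import Pool.Agent.Q139.Bz.Base

/-!
The reflection `(i, j, k) ↦ (i, k, j)` exchanges the `(a, b)`- and the `(b, a)`-benzel.
-/

namespace Pool.Agent.Q139.Bz

open Pool.Agent.Q162.Benzel

/-- Exchange of the last two coordinates. -/
def refl : Cell ≃ Cell where
  toFun c := (c.1, c.2.2, c.2.1)
  invFun c := (c.1, c.2.2, c.2.1)
  left_inv := by rintro ⟨i, j, k⟩; rfl
  right_inv := by rintro ⟨i, j, k⟩; rfl

theorem tileable_map {p : Finset Cell → Prop} (e : Cell ≃ Cell)
    (hp : ∀ T, p T → p (T.map e.toEmbedding)) {R S : Set Cell} (h : ∀ c, e c ∈ S ↔ c ∈ R)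
    (hR : Tileable p R) : Tileable p S := by
  classical
  obtain ⟨P, h1, h2, h3⟩ := hR
  refine ⟨P.image (fun T => T.map e.toEmbedding), ?_, ?_, ?_⟩
  · intro T hT
    obtain ⟨T', hT', rfl⟩ := Finset.mem_image.1 hT
    exact hp T' (h1 T' hT')
  · intro T hT T' hT' hne
    obtain ⟨U, hU, rfl⟩ := Finset.mem_image.1 hT
    obtain ⟨U', hU', rfl⟩ := Finset.mem_image.1 hT'
    rw [Finset.disjoint_map]
    apply h2 U hU U' hU'
    rintro rfl
    exact hne rfl
  · intro c
    rw [← e.apply_symm_apply c, h, ← h3]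
    constructor
    · rintro ⟨T, hT, hc⟩
      obtain ⟨U, hU, rfl⟩ := Finset.mem_image.1 hT
      refine ⟨U, hU, ?_⟩
      rw [Finset.mem_map] at hc
      obtain ⟨x, hx, hxe⟩ := hc
      have : x = e.symm c := by
        apply e.injective
        simpa using hxe
      rwa [← this]
    · rintro ⟨U, hU, hc⟩
      exact ⟨_, Finset.mem_image.2 ⟨U, hU, rfl⟩, Finset.mem_map.2 ⟨_, hc, rfl⟩⟩

theorem refl_leftStone (T : Finset Cell) (h : IsLeftStone T) :
    IsLeftStone (T.map refl.toEmbedding) := by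
  obtain ⟨v, hv, rfl⟩ := h
  refine ⟨refl v, ?_, ?_⟩
  · simp only [refl, Equiv.coe_fn_mk]
    omega
  · ext c
    simp only [Finset.mem_map, Finset.mem_insert, Finset.mem_singleton, Equiv.coe_toEmbedding,
      refl, Equiv.coe_fn_mk]
    constructor
    · rintro ⟨x, rfl | rfl | rfl, rfl⟩ <;> simp
    · rintro (rfl | rfl | rfl)
      · exact ⟨_, Or.inl rfl, by simp⟩
      · exact ⟨_, Or.inr (Or.inr rfl), by simp⟩
      · exact ⟨_, Or.inr (Or.inl rfl), by simp⟩

theorem refl_rightStone (T : Finset Cell) (h : IsRightStone T) :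
    IsRightStone (T.map refl.toEmbedding) := by
  obtain ⟨v, hv, rfl⟩ := h
  refine ⟨refl v, ?_, ?_⟩
  · simp only [refl, Equiv.coe_fn_mk]
    omega
  · ext c
    simp only [Finset.mem_map, Finset.mem_insert, Finset.mem_singleton, Equiv.coe_toEmbedding,
      refl, Equiv.coe_fn_mk]
    constructor
    · rintro ⟨x, rfl | rfl | rfl, rfl⟩ <;> simp
    · rintro (rfl | rfl | rfl)
      · exact ⟨_, Or.inl rfl, by simp⟩
      · exact ⟨_, Or.inr (Or.inr rfl), by simp⟩
      · exact ⟨_, Or.inr (Or.inl rfl), by simp⟩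

theorem refl_bone (i : Fin 3) (T : Finset Cell) (h : IsBone i T) :
    ∃ j, IsBone j (T.map refl.toEmbedding) := by
  obtain ⟨⟨a, b, c⟩, hv, rfl⟩ := h
  simp only at hv
  fin_cases i
  · refine ⟨2, (a + 2, c, b - 2), by simp only; omega, ?_⟩
    ext ⟨x, y, z⟩
    simp only [Finset.mem_map, Finset.mem_insert, Finset.mem_singleton, Equiv.coe_toEmbedding,
      refl, Equiv.coe_fn_mk, dir]
    constructor
    · rintro ⟨x, rfl | rfl | rfl, h⟩ <;> simp at h ⊢ <;> omega
    · simp only [Prod.mk_add_mk, Prod.smul_mk, Prod.mk.injEq]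
      rintro (h | h | h)
      · exact ⟨_, Or.inr (Or.inr rfl), by simp; omega⟩
      · exact ⟨_, Or.inr (Or.inl rfl), by simp; omega⟩
      · exact ⟨_, Or.inl rfl, by simp at h ⊢; omega⟩
  · refine ⟨1, (a, c - 2, b + 2), by simp only; omega, ?_⟩
    ext ⟨x, y, z⟩
    simp only [Finset.mem_map, Finset.mem_insert, Finset.mem_singleton, Equiv.coe_toEmbedding,
      refl, Equiv.coe_fn_mk, dir]
    constructor
    · rintro ⟨x, rfl | rfl | rfl, h⟩ <;> simp at h ⊢ <;> omega
    · simp only [Prod.mk_add_mk, Prod.smul_mk, Prod.mk.injEq]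
      rintro (h | h | h)
      · exact ⟨_, Or.inr (Or.inr rfl), by simp; omega⟩
      · exact ⟨_, Or.inr (Or.inl rfl), by simp; omega⟩
      · exact ⟨_, Or.inl rfl, by simp at h ⊢; omega⟩
  · refine ⟨0, (a - 2, c + 2, b), by simp only; omega, ?_⟩
    ext ⟨x, y, z⟩
    simp only [Finset.mem_map, Finset.mem_insert, Finset.mem_singleton, Equiv.coe_toEmbedding,
      refl, Equiv.coe_fn_mk, dir]
    constructor
    · rintro ⟨x, rfl | rfl | rfl, h⟩ <;> simp at h ⊢ <;> omega
    · simp only [Prod.mk_add_mk, Prod.smul_mk, Prod.mk.injEq]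
      rintro (h | h | h)
      · exact ⟨_, Or.inr (Or.inr rfl), by simp; omega⟩
      · exact ⟨_, Or.inr (Or.inl rfl), by simp; omega⟩
      · exact ⟨_, Or.inl rfl, by simp at h ⊢; omega⟩

theorem refl_benzel (a b : ℤ) (c : Cell) : refl c ∈ benzel a b ↔ c ∈ benzel b a := by
  obtain ⟨i, j, k⟩ := c
  simp only [benzel, refl, Equiv.coe_fn_mk, Set.mem_ofPred_eq]
  omega

end Pool.Agent.Q139.Bz
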