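import Pool.Agent.Q139.Bz.Left

/-!
Benzels with nonnegative Conway-Lagarias invariant are tiled by right stones and bones.
-/

namespace Pool.Agent.Q139.Bz

open Pool.Agent.Q162.Benzel

variable {p : Finset Cell → Prop}

/-! ### Truncated triangles pointing in the same direction as left stones -/

/-- The right stone number `t` along the truncated corner of `tri X Y Z κ`. -/
def stR (X Z κ t : ℤ) : Finset Cell :=
  {(Z - κ + 2 * t, 1 - (Z - κ + 2 * t) - (X - t), X - t),
   (Z - κ + 2 * t + 1, 1 - (Z - κ + 2 * t + 1) - (X - t - 1), X - t - 1),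
   (Z - κ + 2 * t, 1 - (Z - κ + 2 * t) - (X - t - 1), X - t - 1)}

theorem isRightStone_stR (X Z κ t : ℤ) : IsRightStone (stR X Z κ t) := by
  refine ⟨(Z - κ + 2 * t, -(Z - κ + 2 * t) - (X - t - 1), X - t - 1), by simp only; ring, ?_⟩
  ext ⟨i, j, k⟩
  simp only [stR, Finset.mem_insert, Finset.mem_singleton, Prod.mk_add_mk, Prod.mk.injEq]
  omega

theorem tileable_stR (hs : ∀ T, IsRightStone T → p T) (d X Z : ℤ) :
    Tileable p {c : Cell | c.1 + c.2.1 + c.2.2 = 1 ∧
      ((2 * (X - c.2.2) + (Z - c.1) = 2 * d - 3 ∧ 0 ≤ X - c.2.2 ∧ X - c.2.2 ≤ d - 2) ∨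
       ((2 * (X - c.2.2) + (Z - c.1) = 2 * d - 2 ∨ 2 * (X - c.2.2) + (Z - c.1) = 2 * d - 1) ∧
         1 ≤ X - c.2.2 ∧ X - c.2.2 ≤ d - 1))} := by
  apply tileable_of_fun _ (fun c => stR X Z (2 * d - 3)
    (if 2 * (X - c.2.2) + (Z - c.1) = 2 * d - 3 then X - c.2.2 else X - c.2.2 - 1))
  · rintro ⟨i, j, k⟩ hc
    simp only [Set.mem_ofPred_eq] at hc
    simp only [stR, Finset.mem_insert, Finset.mem_singleton, Prod.mk.injEq]
    split_ifs with h
    · omega
    · omega
  · rintro ⟨i, j, k⟩ hc ⟨i', j', k'⟩ hc'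
    simp only [Set.mem_ofPred_eq] at hc ⊢
    simp only [stR, Finset.mem_insert, Finset.mem_singleton, Prod.mk.injEq] at hc'
    have key : (if 2 * (X - k') + (Z - i') = 2 * d - 3 then X - k' else X - k' - 1) =
        (if 2 * (X - k) + (Z - i) = 2 * d - 3 then X - k else X - k - 1) := by
      split_ifs at hc' ⊢ <;> omega
    refine ⟨?_, ?_⟩
    · split_ifs at hc' <;> omega
    · simp only [key]
  · intro c _
    exact hs _ (isRightStone_stR _ _ _ _)
  · apply finite_of_le X (1 - X - Z + 5 * |d| + 5) (Z + 5 * |d| + 5)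
    intro i j k h
    have := abs_nonneg d
    have := le_abs_self d
    have := neg_abs_le d
    simp only [Set.mem_ofPred_eq] at h
    omega

/-- The peeling step with right stones. -/
theorem tri_stepR (hp : ∀ n T, IsBone n T → p T) (hs : ∀ T, IsRightStone T → p T) (d X Y Z : ℤ)
    (hd : 2 ≤ d) (hN : (X + Y + Z) % 3 = 0) (hNd : 3 * d - 3 ≤ X + Y + Z)
    (h : Tileable p (tri (X - 2) Y (Z - 1) (2 * d - 5))) :
    Tileable p (tri X Y Z (2 * d - 3)) := by
  have r0 : Tileable p {c : Cell | c.1 + c.2.1 + c.2.2 = 1 ∧ X - c.2.2 = 0 ∧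
      2 * d - 2 ≤ Z - c.1 ∧ d - 1 ≤ Y - c.2.1} := by
    apply rows0 (hp 0) _ (fun _ => 1 - X - Y + (d - 1))
    · intro i j k h
      simp only [Set.mem_ofPred_eq] at h ⊢
      refine ⟨h.1, ?_⟩
      intro s hs
      refine ⟨?_, ?_, ?_⟩ <;> omega
    · apply finite_of_le X Y Z
      intro i j k h
      simp only [Set.mem_ofPred_eq] at h
      omega
  have r1 : Tileable p {c : Cell | c.1 + c.2.1 + c.2.2 = 1 ∧ X - c.2.2 = 1 ∧
      2 * d - 2 ≤ Z - c.1 ∧ d - 2 ≤ Y - c.2.1} := by
    apply rows0 (hp 0) _ (fun _ => 1 - (X - 1) - Y + (d - 2))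
    · intro i j k h
      simp only [Set.mem_ofPred_eq] at h ⊢
      refine ⟨h.1, ?_⟩
      intro s hs
      refine ⟨?_, ?_, ?_⟩ <;> omega
    · apply finite_of_le X Y Z
      intro i j k h
      simp only [Set.mem_ofPred_eq] at h
      omega
  have r2 : Tileable p {c : Cell | c.1 + c.2.1 + c.2.2 = 1 ∧ Z - c.1 = 0 ∧
      d ≤ X - c.2.2 ∧ 2 * d - 3 ≤ Y - c.2.1} := by
    apply rows1 (hp 1) _ (fun i => 1 - i - X + d)
    · intro i j k h
      simp only [Set.mem_ofPred_eq] at h ⊢
      refine ⟨h.1, ?_⟩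
      intro s hs
      refine ⟨?_, ?_, ?_⟩ <;> omega
    · apply finite_of_le X Y Z
      intro i j k h
      simp only [Set.mem_ofPred_eq] at h
      omega
  have e1 := tileable_union (R := {c : Cell | c.1 + c.2.1 + c.2.2 = 1 ∧ Z - c.1 = 0 ∧
      d ≤ X - c.2.2 ∧ 2 * d - 3 ≤ Y - c.2.1}) (by
    intro i j k h1 h2
    simp only [tri, Set.mem_ofPred_eq] at h1 h2
    omega) r2 h
  have e2 := tileable_union (R := {c : Cell | c.1 + c.2.1 + c.2.2 = 1 ∧ X - c.2.2 = 1 ∧
      2 * d - 2 ≤ Z - c.1 ∧ d - 2 ≤ Y - c.2.1}) (by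
    intro i j k h1 h2
    simp only [tri, Set.mem_ofPred_eq, Set.mem_union] at h1 h2
    omega) r1 e1
  have e3 := tileable_union (R := {c : Cell | c.1 + c.2.1 + c.2.2 = 1 ∧ X - c.2.2 = 0 ∧
      2 * d - 2 ≤ Z - c.1 ∧ d - 1 ≤ Y - c.2.1}) (by
    intro i j k h1 h2
    simp only [tri, Set.mem_ofPred_eq, Set.mem_union] at h1 h2
    omega) r0 e2
  have e4 := tileable_union (by
    intro i j k h1 h2
    simp only [tri, Set.mem_ofPred_eq, Set.mem_union] at h1 h2
    omega) (tileable_stR hs d X Z) e3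
  refine tileable_congr ?_ e4
  intro i j k
  simp only [tri, Set.mem_ofPred_eq, Set.mem_union]
  constructor
  · intro hc
    rcases lt_or_ge (2 * (X - k) + (Z - i)) (2 * d) with h1 | h1
    · by_cases h2 : X - k = 0 ∧ 2 * d - 2 ≤ Z - i
      · iterate 1 apply Or.inr
        apply Or.inl
        omega
      · apply Or.inl
        omega
    · rcases lt_or_ge (X - k) 1 with h2 | h2
      · iterate 1 apply Or.inr
        apply Or.inl
        omega
      · rcases lt_or_ge (X - k) 2 with h3 | h3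
        · iterate 2 apply Or.inr
          apply Or.inl
          omega
        · rcases lt_or_ge (Z - i) 1 with h4 | h4
          · iterate 3 apply Or.inr
            apply Or.inl
            omega
          · iterate 4 apply Or.inr
            omega
  · rintro (h | h | h | h | h) <;> omega

/-- All truncated triangles occurring in benzels with `a + b ≡ 0 (mod 3)`. -/
theorem triR_all (hp : ∀ n T, IsBone n T → p T) (hs : ∀ T, IsRightStone T → p T) (d : ℕ) :
    ∀ X Y Z : ℤ, (X + Y + Z) % 3 = 0 → 3 * (d : ℤ) ≤ X + Y + Z →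
      2 * (X + Y + Z) ≤ 3 * ((d : ℤ) + 1) * ((d : ℤ) + 2) - 6 →
      Tileable p (tri X Y Z (2 * ((d : ℤ) + 1) - 3)) := by
  induction d with
  | zero =>
    intro X Y Z h0 h1 h2
    apply tileable_congr _ (tileable_empty p)
    intro i j k
    simp only [tri, Set.mem_ofPred_eq, Set.mem_empty_iff_false, iff_false]
    push_cast at h1 h2
    omega
  | succ d ih =>
    intro X Y Z h0 h1 h2
    push_cast at h1 h2
    have e1 : (2 * ((d : ℤ) + 2) - 5) = (2 * ((d : ℤ) + 1) - 3) := by ring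
    have e2 : (2 * ((d : ℤ) + 2) - 3) = (2 * (((d + 1 : ℕ) : ℤ) + 1) - 3) := by push_cast; ring
    have hd0 : (0 : ℤ) ≤ d := Int.natCast_nonneg d
    rw [← e2]
    rcases le_or_gt (2 * (X + Y + Z)) (3 * ((d : ℤ) + 1) * ((d : ℤ) + 2)) with h3 | h3
    · apply tri_stepR hp hs _ X Y Z (by omega) h0 (by omega)
      rw [e1]
      apply ih
      · omega
      · omega
      · linarith
    · have h4 : 6 * ((d : ℤ) + 2) - 6 ≤ X + Y + Z := by
        obtain ⟨e, he⟩ : ∃ e : ℤ, ((d : ℤ) + 1) * ((d : ℤ) + 2) = 2 * e := by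
          rcases Int.even_or_odd' (d : ℤ) with ⟨r, hr | hr⟩
          · exact ⟨(2 * r + 1) * (r + 1), by rw [hr]; ring⟩
          · exact ⟨(r + 1) * (2 * r + 3), by rw [hr]; ring⟩
        have h5 : 3 * e + 3 ≤ X + Y + Z := by
          have : 3 * ((d : ℤ) + 1) * ((d : ℤ) + 2) = 6 * e := by linarith
          omega
        have h6 : 0 ≤ (d : ℤ) * ((d : ℤ) - 1) := by
          rcases Nat.eq_zero_or_pos d with h | h
          · simp [h]
          · apply mul_nonneg hd0
            omega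
        nlinarith
      apply tri_step hp _ X Y Z (by omega) h0 h4
      rw [e1]
      apply ih
      · omega
      · omega
      · nlinarith

end Pool.Agent.Q139.Bz
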