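import Pool.Agent.Q139.Bz.Right

/-!
Right stones and bones: the cases `a + b ≡ 1, 2 (mod 3)`.
-/

namespace Pool.Agent.Q139.Bz

open Pool.Agent.Q162.Benzel

variable {p : Finset Cell → Prop}

/-! ### `a + b ≡ 1 (mod 3)`: right stones only -/

/-- The right stone with base `u = (a, b, c)`. -/
def rst (a b c : ℤ) : Finset Cell := {(a + 1, b, c), (a, b + 1, c), (a, b, c + 1)}

theorem isRightStone_rst (a b c : ℤ) (h : a + b + c = 0) : IsRightStone (rst a b c) := by
  refine ⟨(a, b, c), h, ?_⟩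
  simp [rst]

theorem benzel_one (hs : ∀ T, IsRightStone T → p T) (a b : ℤ) (hab : (a + b) % 3 = 1) :
    Tileable p (benzel a b) := by
  apply tileable_of_fun _ (fun c => if (c.2.1 - c.1 - b + 2) % 3 = 0 then rst c.1 c.2.1 (c.2.2 - 1)
    else if (c.2.1 - c.1 - b + 2) % 3 = 1 then rst c.1 (c.2.1 - 1) c.2.2
    else rst (c.1 - 1) c.2.1 c.2.2)
  · rintro ⟨i, j, k⟩ hc
    simp only
    split_ifs with h1 h2 <;> simp [rst]
  · rintro ⟨i, j, k⟩ hc ⟨i', j', k'⟩ hc'
    simp only [benzel, Set.mem_ofPred_eq] at hc ⊢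
    simp only at hc'
    have cases3 : (j - i - b + 2) % 3 = 0 ∨ (j - i - b + 2) % 3 = 1 ∨
      (j - i - b + 2) % 3 = 2 := by omega
    rcases cases3 with h1 | h1 | h1
    · rw [if_pos h1] at hc' ⊢
      simp only [rst, Finset.mem_insert, Finset.mem_singleton, Prod.mk.injEq] at hc'
      refine ⟨by omega, ?_⟩
      rcases hc' with ⟨rfl, rfl, rfl⟩ | ⟨rfl, rfl, rfl⟩ | ⟨rfl, rfl, rfl⟩
      · rw [if_neg (by omega), if_neg (by omega)]
        congr 1
        ring
      · rw [if_neg (by omega), if_pos (by omega)]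
        congr 1
        ring
      · rw [if_pos (by omega)]
        congr 1
        ring
    · rw [if_neg (by omega), if_pos h1] at hc'
      rw [if_neg (by omega : ¬ (j - i - b + 2) % 3 = 0), if_pos h1]
      simp only [rst, Finset.mem_insert, Finset.mem_singleton, Prod.mk.injEq] at hc'
      refine ⟨by omega, ?_⟩
      rcases hc' with ⟨rfl, rfl, rfl⟩ | ⟨rfl, rfl, rfl⟩ | ⟨rfl, rfl, rfl⟩
      · rw [if_neg (by omega), if_neg (by omega)]
        congr 1
        ring
      · rw [if_neg (by omega), if_pos (by omega)]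
        congr 1
        ring
      · rw [if_pos (by omega)]
        congr 1
        ring
    · rw [if_neg (by omega), if_neg (by omega)] at hc'
      rw [if_neg (by omega : ¬ (j - i - b + 2) % 3 = 0),
        if_neg (by omega : ¬ (j - i - b + 2) % 3 = 1)]
      simp only [rst, Finset.mem_insert, Finset.mem_singleton, Prod.mk.injEq] at hc'
      refine ⟨by omega, ?_⟩
      rcases hc' with ⟨rfl, rfl, rfl⟩ | ⟨rfl, rfl, rfl⟩ | ⟨rfl, rfl, rfl⟩
      · rw [if_neg (by omega), if_neg (by omega)]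
        congr 1
        ring
      · rw [if_neg (by omega), if_pos (by omega)]
        congr 1
        ring
      · rw [if_pos (by omega)]
        congr 1
        ring
  · rintro ⟨i, j, k⟩ hc
    simp only [benzel, Set.mem_ofPred_eq] at hc
    simp only
    split_ifs with h1 h2
    · exact hs _ (isRightStone_rst _ _ _ (by omega))
    · exact hs _ (isRightStone_rst _ _ _ (by omega))
    · exact hs _ (isRightStone_rst _ _ _ (by omega))
  · apply finite_of_le (a + b + |a| + |b|) (a + b + |a| + |b|) (a + b + |a| + |b|)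
    intro i j k h
    simp only [benzel, Set.mem_ofPred_eq] at h
    have := le_abs_self a
    have := neg_abs_le a
    have := le_abs_self b
    have := neg_abs_le b
    omega

/-! ### `a + b ≡ 2 (mod 3)` -/

/-- Truncated triangle pointing in the direction of right stones, `x = k - X`, `y = i - Y`,
`z = j - Z`. -/
def tri2 (X Y Z κ : ℤ) : Set Cell :=
  {c | c.1 + c.2.1 + c.2.2 = 1 ∧ 0 ≤ c.2.2 - X ∧ 0 ≤ c.1 - Y ∧ 0 ≤ c.2.1 - Z ∧
    κ ≤ 2 * (c.2.2 - X) + (c.2.1 - Z) ∧ κ ≤ 2 * (c.1 - Y) + (c.2.2 - X) ∧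
    κ ≤ 2 * (c.2.1 - Z) + (c.1 - Y)}

theorem finite_of_ge {R : Set Cell} (X Y Z : ℤ)
    (h : ∀ i j k : ℤ, (i, j, k) ∈ R → i + j + k = 1 ∧ X ≤ k ∧ Y ≤ i ∧ Z ≤ j) :
    R.Finite := by
  apply finite_of_le (1 - Y - Z) (1 - X - Y) (1 - X - Z)
  intro i j k hc
  have := h i j k hc
  omega

theorem full_two2 (hp : ∀ n T, IsBone n T → p T) (hs : ∀ T, IsRightStone T → p T) (m : ℕ) :
    ∀ X Y Z : ℤ, 2 - (X + Y + Z) = 3 * m - 1 → Tileable p (tri2 X Y Z 0) := by
  induction m with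
  | zero =>
    intro X Y Z hN
    apply tileable_congr _ (tileable_empty p)
    intro i j k
    simp only [tri2, Set.mem_ofPred_eq, Set.mem_empty_iff_false, iff_false]
    push_cast at hN
    omega
  | succ m ih =>
    intro X Y Z hN
    push_cast at hN
    have h1 := ih (X + 3) Y Z (by omega)
    have h2 : Tileable p ({c : Cell | c ∈ rst (-X - Z) Z X} ∪ tri2 (X + 3) Y Z 0) := by
      apply tileable_union _ (tileable_single (hs _ (isRightStone_rst _ _ _ (by ring)))) h1
      intro i j k h3 h4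
      simp only [tri2, rst, Set.mem_ofPred_eq, Finset.mem_insert, Finset.mem_singleton,
        Prod.mk.injEq] at h3 h4
      omega
    have h3 : Tileable p {c : Cell | c.1 + c.2.1 + c.2.2 = 1 ∧ 0 ≤ c.2.2 - X ∧ c.2.2 - X ≤ 2 ∧
        0 ≤ c.1 - Y ∧ c.1 - Y ≤ 2 - (X + Y + Z) - 3} := by
      apply rows1 (hp 1) _ (fun i => 1 - i - X - 2)
      · intro i j k h
        simp only [Set.mem_ofPred_eq] at h ⊢
        refine ⟨h.1, ?_⟩
        intro s hs
        refine ⟨?_, ?_, ?_⟩ <;> omega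
      · apply finite_of_ge X Y Z
        intro i j k h
        simp only [Set.mem_ofPred_eq] at h
        omega
    have h4 := tileable_union (by
      intro i j k h3 h4
      simp only [tri2, rst, Set.mem_ofPred_eq, Finset.mem_insert, Finset.mem_singleton,
        Prod.mk.injEq, Set.mem_union] at h3 h4
      omega) h3 h2
    apply tileable_congr _ h4
    intro i j k
    simp only [tri2, rst, Set.mem_ofPred_eq, Finset.mem_insert, Finset.mem_singleton,
      Prod.mk.injEq, Set.mem_union]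
    omega

/-- The right stone number `t` along the truncated corner of `tri2 X Y Z κ`. -/
def stL (X Z κ t : ℤ) : Finset Cell := rst (-(Z + κ - 2 * t) - (X + t)) (Z + κ - 2 * t) (X + t)

theorem tileable_stL (hs : ∀ T, IsRightStone T → p T) (d X Z : ℤ) :
    Tileable p {c : Cell | c.1 + c.2.1 + c.2.2 = 1 ∧
      ((2 * (c.2.2 - X) + (c.2.1 - Z) = 2 * d ∧ 1 ≤ c.2.2 - X ∧ c.2.2 - X ≤ d) ∨
       ((2 * (c.2.2 - X) + (c.2.1 - Z) = 2 * d - 2 ∨ 2 * (c.2.2 - X) + (c.2.1 - Z) = 2 * d - 1) ∧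
         0 ≤ c.2.2 - X ∧ c.2.2 - X ≤ d - 1))} := by
  apply tileable_of_fun _ (fun c => stL X Z (2 * d - 2)
    (if 2 * (c.2.2 - X) + (c.2.1 - Z) = 2 * d then c.2.2 - X - 1 else c.2.2 - X))
  · rintro ⟨i, j, k⟩ hc
    simp only [Set.mem_ofPred_eq] at hc
    simp only [stL, rst, Finset.mem_insert, Finset.mem_singleton, Prod.mk.injEq]
    split_ifs with h
    · omega
    · omega
  · rintro ⟨i, j, k⟩ hc ⟨i', j', k'⟩ hc'
    simp only [Set.mem_ofPred_eq] at hc ⊢
    simp only [stL, rst, Finset.mem_insert, Finset.mem_singleton, Prod.mk.injEq] at hc'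
    have key : (if 2 * (k' - X) + (j' - Z) = 2 * d then k' - X - 1 else k' - X) =
        (if 2 * (k - X) + (j - Z) = 2 * d then k - X - 1 else k - X) := by
      split_ifs at hc' ⊢ <;> omega
    refine ⟨?_, ?_⟩
    · split_ifs at hc' <;> omega
    · simp only [key]
  · intro c _
    exact hs _ (isRightStone_rst _ _ _ (by ring))
  · apply finite_of_ge X (1 - X - Z - 5 * |d| - 5) (Z - 5 * |d| - 5)
    intro i j k h
    have := abs_nonneg d
    have := le_abs_self d
    have := neg_abs_le d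
    simp only [Set.mem_ofPred_eq] at h
    omega

theorem tri2_step (hp : ∀ n T, IsBone n T → p T) (hs : ∀ T, IsRightStone T → p T) (d X Y Z : ℤ)
    (hd : 2 ≤ d) (hN : (2 - (X + Y + Z)) % 3 = 2) (hNd : 3 * d - 1 ≤ 2 - (X + Y + Z))
    (h : Tileable p (tri2 (X + 2) Y (Z + 1) (2 * d - 4))) :
    Tileable p (tri2 X Y Z (2 * d - 2)) := by
  have r0 : Tileable p {c : Cell | c.1 + c.2.1 + c.2.2 = 1 ∧ c.2.2 - X = 0 ∧
      2 * d ≤ c.2.1 - Z ∧ d - 1 ≤ c.1 - Y} := by
    apply rows0 (hp 0) _ (fun _ => Y + d - 1)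
    · intro i j k h
      simp only [Set.mem_ofPred_eq] at h ⊢
      refine ⟨h.1, ?_⟩
      intro s hs
      refine ⟨?_, ?_, ?_⟩ <;> omega
    · apply finite_of_ge X Y Z
      intro i j k h
      simp only [Set.mem_ofPred_eq] at h
      omega
  have r1 : Tileable p {c : Cell | c.1 + c.2.1 + c.2.2 = 1 ∧ c.2.2 - X = 1 ∧
      2 * d - 1 ≤ c.2.1 - Z ∧ d - 1 ≤ c.1 - Y} := by
    apply rows0 (hp 0) _ (fun _ => Y + d - 1)
    · intro i j k h
      simp only [Set.mem_ofPred_eq] at h ⊢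
      refine ⟨h.1, ?_⟩
      intro s hs
      refine ⟨?_, ?_, ?_⟩ <;> omega
    · apply finite_of_ge X Y Z
      intro i j k h
      simp only [Set.mem_ofPred_eq] at h
      omega
  have r2 : Tileable p {c : Cell | c.1 + c.2.1 + c.2.2 = 1 ∧ c.2.1 - Z = 0 ∧
      d + 1 ≤ c.2.2 - X ∧ 2 * d - 2 ≤ c.1 - Y} := by
    apply rows2 (hp 2) _ (fun _ => X + d + 1)
    · intro i j k h
      simp only [Set.mem_ofPred_eq] at h ⊢
      refine ⟨h.1, ?_⟩
      intro s hs
      refine ⟨?_, ?_, ?_⟩ <;> omega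
    · apply finite_of_ge X Y Z
      intro i j k h
      simp only [Set.mem_ofPred_eq] at h
      omega
  have e1 := tileable_union (R := {c : Cell | c.1 + c.2.1 + c.2.2 = 1 ∧ c.2.1 - Z = 0 ∧
      d + 1 ≤ c.2.2 - X ∧ 2 * d - 2 ≤ c.1 - Y}) (by
    intro i j k h1 h2
    simp only [tri2, Set.mem_ofPred_eq] at h1 h2
    omega) r2 h
  have e2 := tileable_union (R := {c : Cell | c.1 + c.2.1 + c.2.2 = 1 ∧ c.2.2 - X = 1 ∧
      2 * d - 1 ≤ c.2.1 - Z ∧ d - 1 ≤ c.1 - Y}) (by
    intro i j k h1 h2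
    simp only [tri2, Set.mem_ofPred_eq, Set.mem_union] at h1 h2
    omega) r1 e1
  have e3 := tileable_union (R := {c : Cell | c.1 + c.2.1 + c.2.2 = 1 ∧ c.2.2 - X = 0 ∧
      2 * d ≤ c.2.1 - Z ∧ d - 1 ≤ c.1 - Y}) (by
    intro i j k h1 h2
    simp only [tri2, Set.mem_ofPred_eq, Set.mem_union] at h1 h2
    omega) r0 e2
  have e4 := tileable_union (by
    intro i j k h1 h2
    simp only [tri2, Set.mem_ofPred_eq, Set.mem_union] at h1 h2
    omega) (tileable_stL hs d X Z) e3
  refine tileable_congr ?_ e4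
  intro i j k
  simp only [tri2, Set.mem_ofPred_eq, Set.mem_union]
  constructor
  · intro hc
    rcases lt_or_ge (2 * (k - X) + (j - Z)) (2 * d + 1) with h1 | h1
    · by_cases h2 : k - X = 0 ∧ 2 * d ≤ j - Z
      · iterate 1 apply Or.inr
        apply Or.inl
        omega
      · apply Or.inl
        omega
    · rcases lt_or_ge (k - X) 1 with h2 | h2
      · iterate 1 apply Or.inr
        apply Or.inl
        omega
      · rcases lt_or_ge (k - X) 2 with h3 | h3
        · iterate 2 apply Or.inr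
          apply Or.inl
          omega
        · rcases lt_or_ge (j - Z) 1 with h4 | h4
          · iterate 3 apply Or.inr
            apply Or.inl
            omega
          · iterate 4 apply Or.inr
            omega
  · rintro (h | h | h | h | h) <;> omega

theorem tri2_all (hp : ∀ n T, IsBone n T → p T) (hs : ∀ T, IsRightStone T → p T) (e : ℕ) :
    ∀ X Y Z : ℤ, (2 - (X + Y + Z)) % 3 = 2 → 3 * (e : ℤ) + 2 ≤ 2 - (X + Y + Z) →
      Tileable p (tri2 X Y Z (2 * (e : ℤ))) := by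
  induction e with
  | zero =>
    intro X Y Z h0 h1
    have := full_two2 hp hs ((3 - (X + Y + Z)) / 3).toNat X Y Z (by push_cast at h1; omega)
    simpa using this
  | succ e ih =>
    intro X Y Z h0 h1
    push_cast at h1
    have e1 : (2 * (e : ℤ)) = 2 * ((e : ℤ) + 2) - 4 := by ring
    have e2 : (2 * (((e + 1 : ℕ) : ℤ))) = 2 * ((e : ℤ) + 2) - 2 := by push_cast; ring
    rw [e2]
    apply tri2_step hp hs _ X Y Z (by omega) h0 (by omega)
    rw [← e1]
    apply ih
    · omega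
    · omega

/-- Benzels with `b ≤ a`, `a + b ≡ 2 (mod 3)`. -/
theorem benzel_two (hp : ∀ n T, IsBone n T → p T) (hs : ∀ T, IsRightStone T → p T) (a b : ℤ)
    (hab : (a + b) % 3 = 2) (hb : b ≤ a) (ha0 : 2 ≤ a) (ha : a ≤ 2 * b) :
    Tileable p (benzel a b) := by
  obtain ⟨q, hq⟩ : ∃ q : ℤ, 3 * q = 2 * a - b - 1 := ⟨(2 * a - b - 1) / 3, by omega⟩
  have c1 : Tileable p {c : Cell | c.1 + c.2.1 + c.2.2 = 1 ∧ c.2.2 ≤ -q ∧
      c.1 ≤ c.2.2 + b - 1 ∧ c.2.1 ≤ c.2.2 + a - 1} := by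
    apply rows0 (hp 0) _ (fun k => 2 - 2 * k - a)
    · intro i j k h
      simp only [Set.mem_ofPred_eq] at h ⊢
      refine ⟨h.1, ?_⟩
      intro s hs
      refine ⟨?_, ?_, ?_⟩ <;> omega
    · apply finite_of_le (a + b) (a + b) (a + b)
      intro i j k h
      simp only [Set.mem_ofPred_eq] at h
      omega
  have c2 : Tileable p {c : Cell | c.1 + c.2.1 + c.2.2 = 1 ∧ c.1 ≤ -q ∧
      c.2.1 ≤ c.1 + b - 1 ∧ c.2.2 ≤ c.1 + a - 1} := by
    apply rows1 (hp 1) _ (fun i => 2 - 2 * i - a)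
    · intro i j k h
      simp only [Set.mem_ofPred_eq] at h ⊢
      refine ⟨h.1, ?_⟩
      intro s hs
      refine ⟨?_, ?_, ?_⟩ <;> omega
    · apply finite_of_le (a + b) (a + b) (a + b)
      intro i j k h
      simp only [Set.mem_ofPred_eq] at h
      omega
  have c3 : Tileable p {c : Cell | c.1 + c.2.1 + c.2.2 = 1 ∧ c.2.1 ≤ -q ∧
      c.2.2 ≤ c.2.1 + b - 1 ∧ c.1 ≤ c.2.1 + a - 1} := by
    apply rows2 (hp 2) _ (fun j => 2 - 2 * j - a)
    · intro i j k h
      simp only [Set.mem_ofPred_eq] at h ⊢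
      refine ⟨h.1, ?_⟩
      intro s hs
      refine ⟨?_, ?_, ?_⟩ <;> omega
    · apply finite_of_le (a + b) (a + b) (a + b)
      intro i j k h
      simp only [Set.mem_ofPred_eq] at h
      omega
  have h : Tileable p (tri2 (1 - q) (1 - q) (1 - q) (2 * (a - b) - 2)) := by
    rcases eq_or_lt_of_le hb with hb | hb
    · have := tri2_all hp hs 0 (1 - q) (1 - q) (1 - q) (by omega) (by push_cast; omega)
      refine tileable_congr ?_ this
      intro i j k
      simp only [tri2, Set.mem_ofPred_eq]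
      push_cast
      omega
    · obtain ⟨e, he⟩ : ∃ e : ℕ, a - b = (e : ℤ) + 1 := ⟨(a - b - 1).toNat, by omega⟩
      have := tri2_all hp hs e (1 - q) (1 - q) (1 - q) (by omega) (by omega)
      have e1 : 2 * (a - b) - 2 = 2 * (e : ℤ) := by rw [he]; ring
      rw [e1]
      exact this
  have e1 := tileable_union (R := {c : Cell | c.1 + c.2.1 + c.2.2 = 1 ∧ c.2.1 ≤ -q ∧
      c.2.2 ≤ c.2.1 + b - 1 ∧ c.1 ≤ c.2.1 + a - 1}) (by
    intro i j k h1 h2
    simp only [tri2, Set.mem_ofPred_eq] at h1 h2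
    omega) c3 h
  have e2 := tileable_union (R := {c : Cell | c.1 + c.2.1 + c.2.2 = 1 ∧ c.1 ≤ -q ∧
      c.2.1 ≤ c.1 + b - 1 ∧ c.2.2 ≤ c.1 + a - 1}) (by
    intro i j k h1 h2
    simp only [tri2, Set.mem_ofPred_eq, Set.mem_union] at h1 h2
    omega) c2 e1
  have e3 := tileable_union (R := {c : Cell | c.1 + c.2.1 + c.2.2 = 1 ∧ c.2.2 ≤ -q ∧
      c.1 ≤ c.2.2 + b - 1 ∧ c.2.1 ≤ c.2.2 + a - 1}) (by
    intro i j k h1 h2
    simp only [tri2, Set.mem_ofPred_eq, Set.mem_union] at h1 h2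
    omega) c1 e2
  refine tileable_congr ?_ e3
  intro i j k
  simp only [benzel, tri2, Set.mem_ofPred_eq, Set.mem_union]
  constructor
  · intro hc
    rcases lt_or_ge k (1 - q) with hk | hk
    · exact Or.inl (by omega)
    · rcases lt_or_ge i (1 - q) with hi | hi
      · exact Or.inr (Or.inl (by omega))
      · rcases lt_or_ge j (1 - q) with hj | hj
        · exact Or.inr (Or.inr (Or.inl (by omega)))
        · exact Or.inr (Or.inr (Or.inr (by omega)))
  · rintro (h | h | h | h) <;> omega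

/-- Benzels with `b ≤ a`, `a + b ≡ 0 (mod 3)` and `a + b ≤ 3 (a - b)²`. -/
theorem benzel_zeroR (hp : ∀ n T, IsBone n T → p T) (hs : ∀ T, IsRightStone T → p T)
    (a b : ℤ) (hab : (a + b) % 3 = 0) (hb : b ≤ a) (ha0 : 2 ≤ a) (hab2 : a ≤ 2 * b)
    (hI : a + b ≤ 3 * (a - b) ^ 2) : Tileable p (benzel a b) := by
  have hb' : b < a := by
    rcases eq_or_lt_of_le hb with h | h
    · subst h
      simp at hI
      omega
    · exact h
  obtain ⟨A, hA⟩ : ∃ A : ℤ, 2 * a - b = 3 * A := ⟨(2 * a - b) / 3, by omega⟩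
  apply benzel_caps hp a b A hab hb ha0 (by omega) (by omega)
  obtain ⟨d, hd⟩ : ∃ d : ℕ, a - b = (d : ℤ) + 1 := ⟨(a - b - 1).toNat, by omega⟩
  have h1 := triR_all hp hs d (A - 1) (A - 1) (A - 1) (by omega) (by omega) (by
    rw [hd] at hI
    nlinarith)
  refine tileable_congr ?_ h1
  intro i j k
  simp only [benzel, tri, Set.mem_ofPred_eq]
  rw [← hd]
  omega

end Pool.Agent.Q139.Bz
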