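import Pool.Agent.Q139.Bz.Base

/-!
Truncated triangles and the peeling step.

A cell `(i, j, k)` is described, relative to bounds `X, Y, Z`, by `x = X - k`, `y = Y - j`,
`z = Z - i`.  The truncated triangle `tri X Y Z κ` consists of the cells with `x, y, z ≥ 0` and
`2 x + z ≥ κ`, `2 y + x ≥ κ`, `2 z + y ≥ κ`.
-/

namespace Pool.Agent.Q139.Bz

open Pool.Agent.Q162.Benzel

/-- Truncated triangle. -/
def tri (X Y Z κ : ℤ) : Set Cell :=
  {c | c.1 + c.2.1 + c.2.2 = 1 ∧ 0 ≤ X - c.2.2 ∧ 0 ≤ Y - c.2.1 ∧ 0 ≤ Z - c.1 ∧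
    κ ≤ 2 * (X - c.2.2) + (Z - c.1) ∧ κ ≤ 2 * (Y - c.2.1) + (X - c.2.2) ∧
    κ ≤ 2 * (Z - c.1) + (Y - c.2.1)}

/-- First blue part: rows `0 ≤ x ≤ d - 2`. -/
def blueA (d X Y Z : ℤ) : Set Cell :=
  {c | c.1 + c.2.1 + c.2.2 = 1 ∧ 0 ≤ X - c.2.2 ∧ X - c.2.2 ≤ d - 2 ∧
    2 * d - 3 - 2 * (X - c.2.2) ≤ Z - c.1 ∧ d + (X - c.2.2) ≤ Y - c.2.1}

/-- Second blue part: the row `x = d - 1`. -/
def blueB (d X Y Z : ℤ) : Set Cell :=
  {c | c.1 + c.2.1 + c.2.2 = 1 ∧ X - c.2.2 = d - 1 ∧ 0 ≤ Z - c.1 ∧ 2 * d - 2 ≤ Y - c.2.1}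

/-- Third blue part: rows `d ≤ x ≤ 3 d - 3`. -/
def blueC (d X Y Z : ℤ) : Set Cell :=
  {c | c.1 + c.2.1 + c.2.2 = 1 ∧ d ≤ X - c.2.2 ∧ X - c.2.2 ≤ 3 * d - 3 ∧
    2 * ((X - c.2.2 - d) / 2) + 2 ≤ Z - c.1 ∧
    d + (3 * d - 4 - (X - c.2.2)) / 2 ≤ Y - c.2.1}

/-- The row `x = 3 d - 2`. -/
def blueD (d X Y Z : ℤ) : Set Cell :=
  {c | c.1 + c.2.1 + c.2.2 = 1 ∧ X - c.2.2 = 3 * d - 2 ∧ 2 * d - 2 ≤ Z - c.1 ∧ d - 2 ≤ Y - c.2.1}

/-- The orange part: rows `0 ≤ z ≤ 2 d - 3`. -/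
def orangeA (d X _Y Z : ℤ) : Set Cell :=
  {c | c.1 + c.2.1 + c.2.2 = 1 ∧ 0 ≤ Z - c.1 ∧ Z - c.1 ≤ 2 * d - 3 ∧
    d + 2 * ((Z - c.1) / 2) ≤ X - c.2.2 ∧ X - c.2.2 ≤ 4 * d - 4 - (Z - c.1) / 2}

/-- The rest of the row `z = 0`. -/
def orangeB (d X Y Z : ℤ) : Set Cell :=
  {c | c.1 + c.2.1 + c.2.2 = 1 ∧ Z - c.1 = 0 ∧ 4 * d - 3 ≤ X - c.2.2 ∧ 2 * d - 3 ≤ Y - c.2.1}

/-- The first green part: rows `0 ≤ y ≤ d - 2`. -/
def greenA (d X Y _Z : ℤ) : Set Cell :=
  {c | c.1 + c.2.1 + c.2.2 = 1 ∧ 0 ≤ Y - c.2.1 ∧ Y - c.2.1 ≤ d - 2 ∧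
    2 * d - 3 - 2 * (Y - c.2.1) ≤ X - c.2.2 ∧ X - c.2.2 ≤ 5 * d - 7 - 2 * (Y - c.2.1)}

/-- The second green part: rows `d - 1 ≤ y ≤ 2 d - 3`. -/
def greenB (d X Y _Z : ℤ) : Set Cell :=
  {c | c.1 + c.2.1 + c.2.2 = 1 ∧ d - 1 ≤ Y - c.2.1 ∧ Y - c.2.1 ≤ 2 * d - 3 ∧
    Y - c.2.1 - (d - 1) ≤ X - c.2.2 ∧ X - c.2.2 ≤ 3 * d - 4 - 2 * (Y - c.2.1 - (d - 1))}

variable {p : Finset Cell → Prop}

theorem tileable_blueA (hp : ∀ T, IsBone 0 T → p T) (d X Y Z : ℤ) (hd : 2 ≤ d) (hN : (X + Y + Z) % 3 = 0) :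
    Tileable p (blueA d X Y Z) := by
  apply rows0 hp _ (fun k => 1 - X - Y + (d + (X - k)) + (X - k))
  · intro i j k h
    simp only [blueA, Set.mem_ofPred_eq] at h ⊢
    refine ⟨h.1, ?_⟩
    intro s hs
    refine ⟨?_, ?_, ?_⟩ <;> omega
  · apply finite_of_le X Y Z
    intro i j k h
    simp only [blueA, Set.mem_ofPred_eq] at h
    omega

theorem tileable_blueB (hp : ∀ T, IsBone 0 T → p T) (d X Y Z : ℤ) (hd : 2 ≤ d) (hN : (X + Y + Z) % 3 = 0) :
    Tileable p (blueB d X Y Z) := by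
  apply rows0 hp _ (fun k => 1 - X - Y + (2 * d - 2) + (X - k))
  · intro i j k h
    simp only [blueB, Set.mem_ofPred_eq] at h ⊢
    refine ⟨h.1, ?_⟩
    intro s hs
    refine ⟨?_, ?_, ?_⟩ <;> omega
  · apply finite_of_le X Y Z
    intro i j k h
    simp only [blueB, Set.mem_ofPred_eq] at h
    omega

theorem tileable_blueC (hp : ∀ T, IsBone 0 T → p T) (d X Y Z : ℤ) (hd : 2 ≤ d) (hN : (X + Y + Z) % 3 = 0) :
    Tileable p (blueC d X Y Z) := by
  apply rows0 hp _ (fun k => 1 - X - Y + (d + (3 * d - 4 - (X - k)) / 2) + (X - k))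
  · intro i j k h
    simp only [blueC, Set.mem_ofPred_eq] at h ⊢
    refine ⟨h.1, ?_⟩
    intro s hs
    have key : ∃ t : ℤ, (X - k - d) / 2 = t ∧
        ((X - k = d + 2 * t ∧ (3 * d - 4 - (X - k)) / 2 = d - 2 - t) ∨
         (X - k = d + 2 * t + 1 ∧ (3 * d - 4 - (X - k)) / 2 = d - 3 - t)) := ⟨_, rfl, by omega⟩
    obtain ⟨t, h1, ⟨h2, h3⟩ | ⟨h2, h3⟩⟩ := key
    · rw [h1, h3] at h ⊢
      rw [h3] at hs
      refine ⟨?_, ?_, ?_⟩ <;> omega
    · rw [h1, h3] at h ⊢
      rw [h3] at hs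
      refine ⟨?_, ?_, ?_⟩ <;> omega
  · apply finite_of_le X Y Z
    intro i j k h
    simp only [blueC, Set.mem_ofPred_eq] at h
    omega

theorem tileable_blueD (hp : ∀ T, IsBone 0 T → p T) (d X Y Z : ℤ) (hd : 2 ≤ d) (hN : (X + Y + Z) % 3 = 0) :
    Tileable p (blueD d X Y Z) := by
  apply rows0 hp _ (fun k => 1 - X - Y + (d - 2) + (X - k))
  · intro i j k h
    simp only [blueD, Set.mem_ofPred_eq] at h ⊢
    refine ⟨h.1, ?_⟩
    intro s hs
    refine ⟨?_, ?_, ?_⟩ <;> omega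
  · apply finite_of_le X Y Z
    intro i j k h
    simp only [blueD, Set.mem_ofPred_eq] at h
    omega

theorem tileable_orangeA (hp : ∀ T, IsBone 1 T → p T) (d X Y Z : ℤ) (hd : 2 ≤ d) (hN : (X + Y + Z) % 3 = 0) :
    Tileable p (orangeA d X Y Z) := by
  apply rows1 hp _ (fun i => 1 - i - X + (d + 2 * ((Z - i) / 2)))
  · intro i j k h
    simp only [orangeA, Set.mem_ofPred_eq] at h ⊢
    refine ⟨h.1, ?_⟩
    intro s hs
    refine ⟨?_, ?_, ?_⟩ <;> omega
  · apply finite_of_le X (1 - X - Z + 6 * d) Z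
    intro i j k h
    simp only [orangeA, Set.mem_ofPred_eq] at h
    omega

theorem tileable_orangeB (hp : ∀ T, IsBone 1 T → p T) (d X Y Z : ℤ) (hd : 2 ≤ d) (hN : (X + Y + Z) % 3 = 0) :
    Tileable p (orangeB d X Y Z) := by
  apply rows1 hp _ (fun i => 1 - i - X + (4 * d - 3))
  · intro i j k h
    simp only [orangeB, Set.mem_ofPred_eq] at h ⊢
    refine ⟨h.1, ?_⟩
    intro s hs
    refine ⟨?_, ?_, ?_⟩ <;> omega
  · apply finite_of_le X Y Z
    intro i j k h
    simp only [orangeB, Set.mem_ofPred_eq] at h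
    omega

theorem tileable_greenA (hp : ∀ T, IsBone 2 T → p T) (d X Y Z : ℤ) (hd : 2 ≤ d) (hN : (X + Y + Z) % 3 = 0) :
    Tileable p (greenA d X Y Z) := by
  apply rows2 hp _ (fun j => X - (5 * d - 7 - 2 * (Y - j)))
  · intro i j k h
    simp only [greenA, Set.mem_ofPred_eq] at h ⊢
    refine ⟨h.1, ?_⟩
    intro s hs
    refine ⟨?_, ?_, ?_⟩ <;> omega
  · apply finite_of_le X Y (1 - X - Y + 6 * d)
    intro i j k h
    simp only [greenA, Set.mem_ofPred_eq] at h
    omega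

theorem tileable_greenB (hp : ∀ T, IsBone 2 T → p T) (d X Y Z : ℤ) (hd : 2 ≤ d) (hN : (X + Y + Z) % 3 = 0) :
    Tileable p (greenB d X Y Z) := by
  apply rows2 hp _ (fun j => X - (3 * d - 4 - 2 * (Y - j - (d - 1))))
  · intro i j k h
    simp only [greenB, Set.mem_ofPred_eq] at h ⊢
    refine ⟨h.1, ?_⟩
    intro s hs
    refine ⟨?_, ?_, ?_⟩ <;> omega
  · apply finite_of_le X Y (1 - X - Y + 6 * d)
    intro i j k h
    simp only [greenB, Set.mem_ofPred_eq] at h
    omega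


/-- One peeling step. -/
theorem tri_step (hp : ∀ n T, IsBone n T → p T) (d X Y Z : ℤ) (hd : 2 ≤ d)
    (hN : (X + Y + Z) % 3 = 0) (hNd : 6 * d - 6 ≤ X + Y + Z)
    (h : Tileable p (tri (X - (3 * d - 1)) Y (Z - 1) (2 * d - 5))) :
    Tileable p (tri X Y Z (2 * d - 3)) := by
  have e1 : Tileable p (orangeB d X Y Z ∪ tri (X - (3 * d - 1)) Y (Z - 1) (2 * d - 5)) := by
    apply tileable_union _ (tileable_orangeB (hp 1) d X Y Z hd hN) h
    intro i j k h1 h2
    simp only [orangeB, tri, Set.mem_ofPred_eq] at h1 h2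
    omega
  have e2 : Tileable p (blueD d X Y Z ∪ (orangeB d X Y Z ∪
      tri (X - (3 * d - 1)) Y (Z - 1) (2 * d - 5))) := by
    apply tileable_union _ (tileable_blueD (hp 0) d X Y Z hd hN) e1
    intro i j k h1 h2
    simp only [orangeB, blueD, tri, Set.mem_ofPred_eq, Set.mem_union] at h1 h2
    omega
  have e3 : Tileable p (orangeA d X Y Z ∪ (blueD d X Y Z ∪ (orangeB d X Y Z ∪
      tri (X - (3 * d - 1)) Y (Z - 1) (2 * d - 5)))) := by
    apply tileable_union _ (tileable_orangeA (hp 1) d X Y Z hd hN) e2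
    intro i j k h1 h2
    simp only [orangeB, orangeA, blueD, tri, Set.mem_ofPred_eq, Set.mem_union] at h1 h2
    omega
  have e4 : Tileable p (greenA d X Y Z ∪ (orangeA d X Y Z ∪ (blueD d X Y Z ∪ (orangeB d X Y Z ∪
      tri (X - (3 * d - 1)) Y (Z - 1) (2 * d - 5))))) := by
    apply tileable_union _ (tileable_greenA (hp 2) d X Y Z hd hN) e3
    intro i j k h1 h2
    simp only [orangeB, orangeA, blueD, greenA, tri, Set.mem_ofPred_eq, Set.mem_union] at h1 h2
    omega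
  have e5 : Tileable p (greenB d X Y Z ∪ (greenA d X Y Z ∪ (orangeA d X Y Z ∪ (blueD d X Y Z ∪
      (orangeB d X Y Z ∪ tri (X - (3 * d - 1)) Y (Z - 1) (2 * d - 5)))))) := by
    apply tileable_union _ (tileable_greenB (hp 2) d X Y Z hd hN) e4
    intro i j k h1 h2
    simp only [orangeB, orangeA, blueD, greenA, greenB, tri, Set.mem_ofPred_eq, Set.mem_union]
      at h1 h2
    omega
  have e6 : Tileable p (blueA d X Y Z ∪ (greenB d X Y Z ∪ (greenA d X Y Z ∪ (orangeA d X Y Z ∪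
      (blueD d X Y Z ∪ (orangeB d X Y Z ∪
        tri (X - (3 * d - 1)) Y (Z - 1) (2 * d - 5))))))) := by
    apply tileable_union _ (tileable_blueA (hp 0) d X Y Z hd hN) e5
    intro i j k h1 h2
    simp only [orangeB, orangeA, blueD, blueA, greenA, greenB, tri, Set.mem_ofPred_eq,
      Set.mem_union] at h1 h2
    omega
  have e7 : Tileable p (blueB d X Y Z ∪ (blueA d X Y Z ∪ (greenB d X Y Z ∪ (greenA d X Y Z ∪
      (orangeA d X Y Z ∪ (blueD d X Y Z ∪ (orangeB d X Y Z ∪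
        tri (X - (3 * d - 1)) Y (Z - 1) (2 * d - 5)))))))) := by
    apply tileable_union _ (tileable_blueB (hp 0) d X Y Z hd hN) e6
    intro i j k h1 h2
    simp only [orangeB, orangeA, blueD, blueA, blueB, greenA, greenB, tri, Set.mem_ofPred_eq,
      Set.mem_union] at h1 h2
    omega
  have e8 : Tileable p (blueC d X Y Z ∪ (blueB d X Y Z ∪ (blueA d X Y Z ∪ (greenB d X Y Z ∪
      (greenA d X Y Z ∪ (orangeA d X Y Z ∪ (blueD d X Y Z ∪ (orangeB d X Y Z ∪
        tri (X - (3 * d - 1)) Y (Z - 1) (2 * d - 5))))))))) := by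
    apply tileable_union _ (tileable_blueC (hp 0) d X Y Z hd hN) e7
    intro i j k h1 h2
    simp only [orangeB, orangeA, blueD, blueA, blueB, blueC, greenA, greenB, tri,
      Set.mem_ofPred_eq, Set.mem_union] at h1 h2
    have key : ∃ t : ℤ, (X - k - d) / 2 = t ∧
        ((X - k = d + 2 * t ∧ (3 * d - 4 - (X - k)) / 2 = d - 2 - t) ∨
         (X - k = d + 2 * t + 1 ∧ (3 * d - 4 - (X - k)) / 2 = d - 3 - t)) := ⟨_, rfl, by omega⟩
    obtain ⟨t, h3, ⟨h4, h5⟩ | ⟨h4, h5⟩⟩ := key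
    · rw [h3, h5] at h1
      omega
    · rw [h3, h5] at h1
      omega
  refine tileable_congr ?_ e8
  intro i j k
  simp only [orangeB, orangeA, blueD, blueA, blueB, blueC, greenA, greenB, tri,
      Set.mem_ofPred_eq, Set.mem_union]
  constructor
  · intro hc
    rcases lt_or_ge (X - k) (d - 1) with hx | hx
    · rcases lt_or_ge (Y - j) (d + (X - k)) with hy | hy
      · rcases lt_or_ge (Y - j) (d - 1) with hy2 | hy2
        · iterate 4 apply Or.inr
          apply Or.inl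
          omega
        · iterate 3 apply Or.inr
          apply Or.inl
          omega
      · iterate 2 apply Or.inr
        apply Or.inl
        omega
    · rcases lt_or_ge (X - k) d with hx2 | hx2
      · rcases lt_or_ge (Y - j) (d - 1) with hy2 | hy2
        · iterate 4 apply Or.inr
          apply Or.inl
          omega
        · rcases lt_or_ge (Y - j) (2 * d - 2) with hy3 | hy3
          · iterate 3 apply Or.inr
            apply Or.inl
            omega
          · iterate 1 apply Or.inr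
            apply Or.inl
            omega
      · rcases lt_or_ge (X - k) (3 * d - 2) with hx3 | hx3
        · have key : ∃ t : ℤ, (X - k - d) / 2 = t ∧
            ((X - k = d + 2 * t ∧ (3 * d - 4 - (X - k)) / 2 = d - 2 - t) ∨
             (X - k = d + 2 * t + 1 ∧ (3 * d - 4 - (X - k)) / 2 = d - 3 - t)) :=
            ⟨_, rfl, by omega⟩
          obtain ⟨t, h3, h4⟩ := key
          rcases lt_or_ge (Z - i) (2 * t + 2) with hz | hz
          · iterate 5 apply Or.inr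
            apply Or.inl
            omega
          · rcases lt_or_ge (Y - j) (d + (3 * d - 4 - (X - k)) / 2) with hy | hy
            · rcases lt_or_ge (Y - j) (d - 1) with hy2 | hy2
              · iterate 4 apply Or.inr
                apply Or.inl
                omega
              · iterate 3 apply Or.inr
                apply Or.inl
                omega
            · apply Or.inl
              rw [h3]
              omega
        · rcases lt_or_ge (2 * (X - k - (3 * d - 2)) + (Z - i)) (2 * d - 2) with h1 | h1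
          · iterate 5 apply Or.inr
            apply Or.inl
            omega
          · rcases lt_or_ge (2 * (Y - j) + (X - k - (3 * d - 2))) (2 * d - 4) with h2 | h2
            · iterate 4 apply Or.inr
              apply Or.inl
              omega
            · rcases lt_or_ge (X - k) (3 * d - 1) with hx4 | hx4
              · iterate 6 apply Or.inr
                apply Or.inl
                omega
              · rcases lt_or_ge (Z - i) 1 with hz | hz
                · iterate 7 apply Or.inr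
                  apply Or.inl
                  omega
                · iterate 8 apply Or.inr
                  omega
  · rintro (h | h | h | h | h | h | h | h | h)
    · have key : ∃ t : ℤ, (X - k - d) / 2 = t ∧
        ((X - k = d + 2 * t ∧ (3 * d - 4 - (X - k)) / 2 = d - 2 - t) ∨
         (X - k = d + 2 * t + 1 ∧ (3 * d - 4 - (X - k)) / 2 = d - 3 - t)) := ⟨_, rfl, by omega⟩
      obtain ⟨t, h3, ⟨h4, h5⟩ | ⟨h4, h5⟩⟩ := key
      · rw [h3, h5] at h
        omega
      · rw [h3, h5] at h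
        omega
    · omega
    · omega
    · omega
    · omega
    · omega
    · omega
    · omega
    · omega

end Pool.Agent.Q139.Bz
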